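import Pool.Agent.H27.Ab.Main

/-!
# The Tate conjecture for the powers of an abelian variety from the abelian variety itself, in the
# presence of exotic classes

Let `q = p ^ a`, and let `W` be a Weil cohomology theory for varieties over the field with `q`
elements, with an algebraically closed field of coefficients (for instance `l`-adic cohomology). Let
`A t`, `t ∈ I`, be abelian varieties (all that is used is a multiplication with a unit,
`HasMultiplication`, and that the cohomology ring is generated by classes of cycles and of degree
one) such that the Frobenius eigenvalues on the first cohomology of `A t` are conjugates of one Weil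
number `γ t` (`IsIsotypic`).

Let the types `t` be divided into blocks, `B t` the block of `t`, such that the field generated by
the conjugates of the `γ t` of one block meets the field generated by the conjugates of all the
others in totally real numbers (there is no condition if there is only one block). Suppose that in
every block there are, at a given place above `p`, at most two pairs of complex conjugate letters
`(t, z)`, `z` conjugate to `γ t`, whose slope is not `1 / 2`; for those of type `t` let `c t` be the
distance of the slope from its complex conjugate (`AtMostTwoPairs`). There is no condition on the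
Galois groups. For instance, a block consists of one simple abelian variety of arbitrary dimension
with the Newton slopes `0, 0, 1 / 2, …, 1 / 2, 1, 1` and an irreducible characteristic polynomial, or
of two simple abelian varieties with the slopes `0, 1 / 2, …, 1 / 2, 1`, with an arbitrary relation
between their Frobenius fields. There are exotic Tate classes in general.

**Theorem.** Let `n t > 0` be integers such that `c t * n t` depends only on the block of `t`
(`n t = 1` if the widths of the block are equal), and let `κ > 0` kill the torsion (`κ = 1` over a
sufficiently large finite field). Let `Z` be an **arbitrary** variety, and `D = dim Z` (or any bound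
for the widths of its Frobenius eigenvalues). All generalised Tate classes on the products of `Z`
with arbitrary powers of the `A t` are polynomials in the classes of cycles, in the pull-backs of
divisor classes of the `A t`, and in the pull-backs of Tate classes of the products of `Z` with at
most

  `⌊(G D + κ c t n t) / c t⌋`

copies of `A t` for every `t`, where `2 G` is the number of the letters in the block of `t`.

For `Z` a point this is `κ n t`. In particular, if `κ = 1` and all widths of the same block are
equal (for example if all slopes are `0`, `1 / 2` and `1`), **the Tate conjecture for the product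
of the `A t`, each taken once, implies the Tate conjecture for all products of powers of the `A t`**,
although there are indecomposable exotic classes. The theorem `TwoExceptionalPairs` needs
`deg (γ t) / 2` factors `A t` for this, that is, the power `A ^ g` in the case of one abelian variety
`A` of dimension `g`.

**The proof.** The combinatorics of the relations is that of `TwoExceptionalPairs`, in terms of the
multiplicities of the letters: a relation with large multiplicities contains a relation in which
the letters of a connected component of a graph have the multiplicities `κ n t`. The geometric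
ingredient is the one of `MP_0d42ed_ag.PowersOfAbelianVarieties`: letters with different labels can
be put on the same copy of `A t`, and be separated again by means of the group law and of the
partial Frobenius endomorphisms of `V × A t`.
-/

set_option autoImplicit false

open CategoryTheory AlgebraicGeometry

universe u v w' w''

namespace Pool.Agent.Results.MP_021685_ag.AbelianVarietiesInBlocks

open Pool.Agent.H914 Pool.Agent.H914.VarClass Pool.Agent.H914.VarClass.Obj
  Pool.Agent.H914.WeilCohomology Pool.Agent.Q56.FE Pool.Agent.Q56.FR
  Pool.Agent.H27.K3 Pool.Agent.H27.Lin Pool.Agent.H27.Two Pool.Agent.H27.Ab IntermediateField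

/-- **The Tate conjecture for products of an arbitrary variety with powers of abelian varieties, in
the presence of exotic classes.** -/
theorem result {k : Type u} [Field k] {𝒱 : VarClass k} {ops : CycleOps 𝒱}
    {W : WeilCohomology.{u, v} ops} [IsAlgClosed W.K] {p : ℕ} [Fact p.Prime] {a : ℕ} (ha : 0 < a)
    (F : FrobeniusOver W (p ^ a)) (τ : Qb →+* W.K) (ι : Qb →+* PadicAlgCl p) :
    ∃ lam : Qb → ℚ, (∀ z, (lam z : ℝ) = -Real.logb ((p ^ a : ℕ) : ℝ) ‖ι z‖) ∧
      ∀ {I : Type w'} {J : Type w''} (γ : I → Qb) (B : I → J) (c : I → ℚ),
        (∀ t, IsWeil (p ^ a) 1 (γ t)) → AtMostTwoPairs lam (fun _ => 1) γ B c →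
        BlocksMeetInReal γ B →
        ∀ n : I → ℕ, (∀ t, 0 < n t) → (∀ t s, B t = B s → c t * n t = c s * n s) →
        ∀ κ : ℕ, 0 < κ → KillsTorsion lam (p ^ a) (fun _ => 1) γ κ →
        ∀ A : I → 𝒱.Obj, (∀ t, HasMultiplication (A t)) → (∀ t, IsIsotypic F τ (γ t) (A t)) →
        ∀ Z : 𝒱.Obj, HasWeights F τ Z →
          (∀ D : ℚ, HasWidthAtMost F τ lam D Z → TateFromPowers F A
            (fun t => ⌊((letters γ B (B t)).ncard / 2 * D + κ * (c t * n t)) / c t⌋₊) Z) ∧
          (HasIntegralEigenvalues F τ Z → TateFromPowers F A
            (fun t => ⌊((letters γ B (B t)).ncard / 2 * Z.dim + κ * (c t * n t)) / c t⌋₊) Z ∧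
            (Z.dim = 0 → TateFromPowers F A (fun t => κ * n t) Z)) := by
  obtain ⟨lam, hlam⟩ := exists_lam ha ι
  refine ⟨lam, hlam, ?_⟩
  intro I J γ B c hw h2 hB n hn hcn κ hκ0 hκ A hA hA' Z hZ
  refine ⟨fun D hD => powersBlocks ha hlam hw h2 hB hn hcn hκ0 hκ hZ hD hA hA', fun hI => ?_⟩
  have h := powersBlocks ha hlam hw h2 hB hn hcn hκ0 hκ hZ (width_le_dim ha hlam hZ hI) hA hA'
  refine ⟨h, fun h0 => ?_⟩
  have h3 : blockBound γ B c n κ (Z.dim : ℚ) = fun t => κ * n t := by
    funext t
    have hc : 0 < c t := by
      obtain ⟨z, hz, h0⟩ := h2.exists_ne t
      rw [← h2.width_eq t z hz h0]
      exact abs_pos.2 (sub_ne_zero.2 h0)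
    rw [blockBound, h0, Nat.cast_zero, mul_zero, zero_add, mul_left_comm, mul_div_cancel_left₀ _
      hc.ne']
    exact_mod_cast Nat.floor_natCast (R := ℚ) (κ * n t)
  rw [h3] at h
  exact h

end Pool.Agent.Results.MP_021685_ag.AbelianVarietiesInBlocks
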