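import Mathlib
import Pool.Agent.H32.XT.Main
import Pool.Agent.H32.XT.Ex
import Pool.Agent.H47.XT.Model
import Pool.Agent.H13.N8.Fin

/-!
# The exact codimension of the Tate classes which are needed for an abelian variety

Let `A` be a complex abelian variety (for example defined over a number field), `b` a basis of
`H_1(A, ℚ)`, `ℓ` a prime number, `𝔤_ℓ(A)` the Lie algebra of the image of the Galois group on the
`ℓ`-adic Tate module of `A`, with coefficients extended to the completion of the algebraic closure of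
`ℚ_ℓ`, which is identified with `ℂ`. A class in `H^(2 p)(X, ℂ)` is a combination of Tate classes
(classes fixed by an open subgroup of the Galois group after the Tate twist) if and only if it is killed
by the part of `𝔤_ℓ(X)` which acts trivially on the Tate twists. These Lie algebras for all complex abelian
varieties, with the theorems on them of Faltings, Deligne, Sen, Blasius, Wintenberger, Serre, Vasiu,
Ullmo, Yafaev and Mostow which are used, are packaged in the structure `Monodromy`. The theorem holds for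
every family of operators with these properties; another model are the conjugates of the Hodge operators
(`nonempty_monodromy`), for which `IsTate` means a combination of Hodge classes and (M) is true.

A Tate class on an abelian variety is *generated in codimension `c`* (`GenT c`) if it is obtained by
linear combinations, cup products, pull-backs along homomorphisms and push-forwards along projections
from Tate classes of codimension at most `c` on arbitrary abelian varieties. In the same way a Hodge class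
can be generated by Hodge classes of codimension at most `c` (`Gen c`). No Weil classes are used as
generators.

The operator `h = - i J` on `H_1(A, ℂ)` (`J` is the complex structure) has the values `1` and `- 1` on
the two summands of the Hodge decomposition, and `𝔤 = hodgeLie A b` is the complex Lie algebra generated
by all conjugates of `h` under the automorphisms of `ℂ`. Consider the following conditions.

* (M) The Tate classes of codimension two on `A⁴` are combinations of Hodge classes (this is true if the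
  Tate conjecture is true for these classes).
* (A) Every surjective homomorphism `ρ : 𝔤 → 𝔰𝔩_n`, `n ≥ 3`, is of *ball type*: for all conjugates
  `h` the matrix `ρ h` has an eigenspace of codimension at most one (signature `(1, n - 1)`), or is
  *small*: for all `h` with `ρ h ≠ 0` all eigenspaces of `ρ h` have dimension at most `c`
  (signature `(p, q)` with `p, q ≤ c`).
* (D) If `ρ : 𝔤 → 𝔰𝔬_(2 l)`, `l ≥ 5`, is surjective and `(ρ h) ^ 2 = 1` for one of the `h` (type
  `SO^*(2 l)`), then `l ≤ c`.

**Theorem.** Let `c ≥ 2`; if `c ≤ 3` and `dim A ≥ 8` assume that `𝔤` has no quotient `𝔰𝔬_8`.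

1. For every abelian variety `Y` of CM type, all Tate classes on all powers of `A × Y`, of all
   codimensions, are complex combinations of classes which are generated by Hodge classes of codimension
   at most `c`, if and only if (M), (A) and (D) are true.
2. Under the condition (M): for every `Y` of CM type, all Tate classes on all powers of `A × Y` are
   generated by Tate classes of codimension at most `c`, if and only if (A) and (D) are true.
3. For every `c` there is an abelian variety for which (A) is not true.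

So if (M), (A), (D) are true and the Hodge classes of codimension at most `c` on abelian varieties are
algebraic, then the Tate conjecture is true for all powers of all `A × Y`; if (M) is true and (A) or (D) is
not true then some Tate class on a power of some `A × Y` is not obtained from Tate classes of codimension
at most `c`, on whatever abelian varieties.

Before: the library's `CodimensionTwoH1` (`MP_640417_ag`) shows that (M) implies the Mumford-Tate conjecture
for `A`, and `CodimensionTwoAndSplitWeil` (`MP_802513_ag`) that Hodge classes of codimension two and Weil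
classes generate all Hodge classes. Here no Weil classes are used, and the codimension is exact; in the
negative half the auxiliary abelian varieties are arbitrary and their Tate classes are not known.

The proof. (The positive half uses the theorem on Hodge classes, `ProductsOfKThreeSurfaces` of the
problem `MP_e12fcd_ag`, the case without K3 surfaces.)

* The Lie algebra `𝔤' ⊆ 𝔤` of the monodromy group is stable under the adjoint in a suitable basis
  (Faltings, Mostow). The complex matrices of size `V ⊗ V`, `V = H_1(A, ℂ)`, which commute with `𝔤'` are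
  Tate classes of codimension two on `A⁴`, so by (M) they commute with `𝔤`. The orthogonal projection `P`
  onto `𝔤'` in the space of the matrices commutes with `ad 𝔤'`, so with `ad 𝔤`. For `y ∈ 𝔤` the matrix
  `y - P y` commutes with `𝔤'`, so it is in the centre of `𝔤`, which is in `𝔤'` (Serre, Vasiu,
  Ullmo-Yafaev). So `𝔤' = 𝔤`, and the same is true for all powers of `A × Y`. So (M), (A), (D) are
  sufficient.
* For the other direction, let `ρ : 𝔤 → 𝔰𝔩_n` be neither of ball type nor small. On the homology of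
  ARBITRARY abelian varieties `X` (the monodromy Lie algebra of `A × X` is not known) the ideal acts by
  copies of the standard representation, its dual and the trivial representation, since the Hodge-Tate
  operators have the square one: for the lifts of matrix units `E_ij E_kl = 0` holds for `i ≠ j`, `k ≠ l` in
  general position. So there are idempotents `e⁺`, `e⁻` in the algebra generated by the
  monodromy operators, given by the same formula for all `X`. The operator
  `u = 1 + (ζ - 1) e⁺ + (ζ⁻¹ - 1) e⁻` commutes with all homomorphisms and fixes all Tate classes of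
  codimension at most `c`, so all classes generated by them. But the determinant on the image of
  `e⁺` on `H_1(A, ℂ)` can be completed to a Hodge class on `A × Y`, `Y` of CM type, which is not fixed. For
  the ideals of type `D` the same is done with a reflection.
-/

noncomputable section

namespace Pool.Agent.Results.MP_021685_ag.ExactCodimension

open Module Matrix
open scoped TensorProduct
open Pool.Agent.H204R3.CM
open Pool.Agent.Q60.D3 (AV IsHom IsCM cx)
open Pool.Agent.Q180.VA (pw)

/- The bracket of matrices is the commutator, as in Mathlib's `LieAlgebra.SpecialLinear.sl`. -/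
attribute [local instance 100] LieRing.ofAssociativeRing

/-! ## The Hodge Lie algebra -/

section

variable {ι : Type} [Fintype ι] [DecidableEq ι]

/-- `J` is the matrix, in the basis `b` of `H_1(A, ℚ)`, of the multiplication by `i` on the tangent
space. -/
def IsComplexStructure (A : AV) (b : Basis ι ℚ A.H) (J : Matrix ι ι ℝ) : Prop :=
  ∀ j, Complex.I • A.per (b j) = ∑ i, (J i j : ℂ) • A.per (b i)

/-- The conjugates under the automorphisms of `ℂ` of the operator `h = - i J` on `H_1(A, ℂ)`, which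
has the values `1` and `- 1` on the two summands of the Hodge decomposition. -/
def hodgeOperators (A : AV) (b : Basis ι ℚ A.H) : Set (Matrix ι ι ℂ) :=
  {h | ∃ J : Matrix ι ι ℝ, IsComplexStructure A b J ∧
    ∃ γ : ℂ ≃+* ℂ, h = ((-Complex.I) • J.map (fun x : ℝ => (x : ℂ))).map γ}

/-- The Hodge Lie algebra of `A` over `ℂ`: the complex Lie algebra of matrices generated by the
conjugates of the Hodge operator. -/
def hodgeLie (A : AV) (b : Basis ι ℚ A.H) : LieSubalgebra ℂ (Matrix ι ι ℂ) :=
  LieSubalgebra.lieSpan ℂ _ (hodgeOperators A b)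

/-- `x` is in the complex Lie algebra generated by the matrices in `S`. -/
def InLieSpan (S : Set (Matrix ι ι ℂ)) (x : Matrix ι ι ℂ) : Prop :=
  x ∈ LieSubalgebra.lieSpan ℂ (Matrix ι ι ℂ) S

/-- The map `ρ` from the Hodge Lie algebra of `A` to the matrices of size `n` is a surjective
homomorphism of Lie algebras onto the Lie algebra `L` of matrices. -/
def IsSurjectiveHom (A : AV) (b : Basis ι ℚ A.H) {n : ℕ}
    (L : LieSubalgebra ℂ (Matrix (Fin n) (Fin n) ℂ))
    (ρ : hodgeLie A b → Matrix (Fin n) (Fin n) ℂ) : Prop :=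
  ∃ φ : hodgeLie A b →ₗ⁅ℂ⁆ L, Function.Surjective φ ∧ ∀ x, ρ x = φ x

/-- **(A)** For every surjective homomorphism `ρ : 𝔤 → 𝔰𝔩_n`, `n ≥ 3`: every `ρ h` has an eigenspace of
codimension at most one, or every `ρ h` is zero or has only eigenspaces of dimension at most `c`. -/
def CondA (A : AV) (b : Basis ι ℚ A.H) (c : ℕ) : Prop :=
  ∀ n, 3 ≤ n → ∀ ρ, IsSurjectiveHom A b (LieAlgebra.SpecialLinear.sl (Fin n) ℂ) ρ →
    (∀ h : hodgeLie A b, (h : Matrix ι ι ℂ) ∈ hodgeOperators A b →
      ∃ s : ℂ, (ρ h - s • 1).rank ≤ 1) ∨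
    (∀ h : hodgeLie A b, (h : Matrix ι ι ℂ) ∈ hodgeOperators A b →
      ρ h = 0 ∨ ∀ s : ℂ, n ≤ (ρ h - s • 1).rank + c)

/-- **(D)** If `ρ : 𝔤 → 𝔰𝔬_(2 l)`, `l ≥ 5`, is a surjective homomorphism and `(ρ h) ^ 2 = 1` for one of the
`h`, then `l ≤ c`. -/
def CondD (A : AV) (b : Basis ι ℚ A.H) (c : ℕ) : Prop :=
  ∀ l, 5 ≤ l → ∀ ρ, IsSurjectiveHom A b (LieAlgebra.Orthogonal.so (Fin (2 * l)) ℂ) ρ →
    (∃ h : hodgeLie A b, (h : Matrix ι ι ℂ) ∈ hodgeOperators A b ∧ ρ h * ρ h = 1) → l ≤ c

/-- The Hodge Lie algebra has the quotient `𝔰𝔬_8`. -/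
def HasQuotientSo8 (A : AV) (b : Basis ι ℚ A.H) : Prop :=
  ∃ ρ, IsSurjectiveHom A b (LieAlgebra.Orthogonal.so (Fin 8) ℂ) ρ

/-! ## The monodromy operators -/

/-- The matrix of an operator on `H_1(X, ℂ) = ℂ ⊗ H_1(X, ℚ)` in a basis of this space -/
def matrixOf {X : AV} (b : Basis ι ℂ (ℂ ⊗[ℚ] X.H)) (T : Module.End ℂ (ℂ ⊗[ℚ] X.H)) :
    Matrix ι ι ℂ := LinearMap.toMatrix b b T

/-- The basis of `H_1(X, ℂ)` given by a basis of `H_1(X, ℚ)` -/
def complexBasis {X : AV} (b : Basis ι ℚ X.H) : Basis ι ℂ (ℂ ⊗[ℚ] X.H) := b.baseChange ℂ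

end

/-- Operators on `H_1(X, ℂ) = ℂ ⊗ H_1(X, ℚ)`, indexed by `i ∈ I`, for all complex abelian varieties `X` -/
abbrev Operators (I : Type) : Type 1 := ∀ X : AV, I → Module.End ℂ (ℂ ⊗[ℚ] X.H)

section

variable {I : Type}

/-- The operators commute with all homomorphisms. -/
def IsNatural (D : Operators I) : Prop :=
  ∀ (X Y : AV) (h : X.H →ₗ[ℚ] Y.H), IsHom X Y h →
    ∀ i, h.baseChange ℂ ∘ₗ D X i = D Y i ∘ₗ h.baseChange ℂ

/-- The matrices of the operators in a basis of `H_1(X, ℂ)` -/
def matrices (D : Operators I) (X : AV) {ι : Type} [Fintype ι] [DecidableEq ι]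
    (b : Basis ι ℂ (ℂ ⊗[ℚ] X.H)) : Set (Matrix ι ι ℂ) := Set.range fun i => matrixOf b (D X i)

/-- The operators are elements of the Hodge Lie algebras. -/
def InHodgeLie (D : Operators I) : Prop :=
  ∀ (X : AV) (ι : Type) [Fintype ι] [DecidableEq ι] (b : Basis ι ℚ X.H) (i : I),
    matrixOf (complexBasis b) (D X i) ∈ hodgeLie X b

/-- Every conjugate `h` of the Hodge operator of `X` is conjugate, in all representations of the Hodge Lie
algebra, to an operator `D X i` such that all `D Y i` have the square one. -/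
def HasHodgeConjugates (D : Operators I) (hD : InHodgeLie D) : Prop :=
  ∀ (X : AV) (ι : Type) [Fintype ι] [DecidableEq ι] (b : Basis ι ℚ X.H),
    ∀ h : hodgeLie X b, (h : Matrix ι ι ℂ) ∈ hodgeOperators X b →
    ∃ i, (∀ Y, D Y i * D Y i = 1) ∧
      ∀ (n : ℕ) (ρ : hodgeLie X b →ₗ⁅ℂ⁆ Matrix (Fin n) (Fin n) ℂ),
      ∃ P : (Matrix (Fin n) (Fin n) ℂ)ˣ,
        ρ ⟨matrixOf (complexBasis b) (D X i), hD X ι b i⟩ =
          P * ρ h * (P⁻¹ : (Matrix (Fin n) (Fin n) ℂ)ˣ)

/-- The centre of the Hodge Lie algebra is in the Lie algebra generated by the operators. -/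
def ContainsCentre (D : Operators I) : Prop :=
  ∀ (X : AV) (ι : Type) [Fintype ι] [DecidableEq ι] (b : Basis ι ℚ X.H) (z : Matrix ι ι ℂ),
    InLieSpan (hodgeOperators X b) z →
    (∀ w, InLieSpan (hodgeOperators X b) w → z * w = w * z) →
      InLieSpan (matrices D X (complexBasis b)) z

/-- In a suitable basis of `H_1(X, ℂ)` the Lie algebra generated by the operators is stable under the
adjoint. -/
def IsStarStable (D : Operators I) : Prop :=
  ∀ X : AV, ∃ (ι : Type) (_ : Fintype ι) (_ : DecidableEq ι) (b : Basis ι ℂ (ℂ ⊗[ℚ] X.H)),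
    ∀ x, InLieSpan (matrices D X b) x → InLieSpan (matrices D X b) xᴴ

end

/-- **The Lie algebras of the `ℓ`-adic monodromy groups of all complex abelian varieties.** Let `ℓ` be a
prime number, `K` the completion of the algebraic closure of `ℚ_ℓ`, identified with `ℂ`. For a complex
abelian variety `X`, defined over a finitely generated field `k`, let `𝔤 X` be the Lie algebra of the
image of the Galois group of `k` on the rational Tate module `H_1(X, ℚ) ⊗ ℚ_ℓ`, with coefficients extended
to `K = ℂ`; it acts on `ℂ ⊗ H_1(X, ℚ)` and does not depend on `k`. Let `I` be the set of natural families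
`(D X)`, `D X ∈ 𝔤 X` for all `X`, which act trivially on the Tate twists. Each element of `𝔤 X` which acts
trivially on the Tate twists belongs to such a family. The fields are theorems:
* `nat`: homomorphisms of abelian varieties are defined over finitely generated fields;
* `deligne`: Hodge classes are Tate classes (Deligne), so the `D X i` are in the Lie algebra of the Hodge
  group;
* `conj`: for an isomorphism `i` of `ℂ` with the algebraic closure of `ℚ_ℓ` let `h` be the Hodge-Tate
  operator (with the eigenvalues `0`, `1`) of the abelian variety obtained from `X` and `i`. It is in `𝔤 X`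
  (Sen), and the `D X i = 2 h - 1` are a natural family of operators with the square one. They are
  conjugate to the Hodge operator transported by `i` (Blasius, Wintenberger; Liu and Zhu if `X` is not
  defined over the algebraic numbers), under the complex points of the Hodge group, so in each
  representation of its Lie algebra;
* `centre`: the centre of the Lie algebra of the Hodge group is in `𝔤 X` (Serre, Vasiu, Ullmo-Yafaev);
* `mostow`: `𝔤 X` is the Lie algebra of a reductive group (Faltings), so it is stable under the adjoint in a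
  suitable basis (Mostow). -/
structure Monodromy where
  I : Type
  D : Operators I
  nat : IsNatural D
  deligne : InHodgeLie D
  conj : HasHodgeConjugates D deligne
  centre : ContainsCentre D
  mostow : IsStarStable D

/-- The class `F ∈ H^κ(X, ℂ)`, an alternating complex valued form on `H_1(X, ℚ)`, is a combination of Tate
classes: its extension to `ℂ ⊗ H_1(X, ℚ)` is killed by the operators `D X i` -/
def IsTate (𝔏 : Monodromy) (X : AV) {κ : Type} [Fintype κ] [DecidableEq κ]
    (F : X.H [⋀^κ]→ₗ[ℚ] ℂ) : Prop :=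
  ∃ G : MultilinearMap ℂ (fun _ : κ => ℂ ⊗[ℚ] X.H) ℂ, (∀ v : κ → X.H, G (fun k => 1 ⊗ₜ v k) = F v) ∧
    ∀ (i : 𝔏.I) (v : κ → ℂ ⊗[ℚ] X.H), ∑ k, G (Function.update v k (𝔏.D X i (v k))) = 0

/-- The smallest system of complex cohomology classes of abelian varieties which contains the Tate
classes of codimension at most `c` on all abelian varieties and which is stable under linear
combinations, cup products, pull-backs along homomorphisms and push-forwards along projections -/
inductive GenT (𝔏 : Monodromy) (c : ℕ) : (X : AV) → (κ : Type) → (X.H [⋀^κ]→ₗ[ℚ] ℂ) → Prop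
  /-- classes of degree zero -/
  | unit {X : AV} {κ : Type} [IsEmpty κ] (f : X.H [⋀^κ]→ₗ[ℚ] ℂ) : GenT 𝔏 c X κ f
  /-- Tate classes of codimension at most `c` -/
  | low {X : AV} {m : ℕ} (hm : m ≤ 2 * c) (f : X.H [⋀^Fin m]→ₗ[ℚ] ℂ) (hf : IsTate 𝔏 X f) :
      GenT 𝔏 c X (Fin m) f
  | zero (X : AV) (κ : Type) : GenT 𝔏 c X κ 0
  | add {X : AV} {κ : Type} (f g : X.H [⋀^κ]→ₗ[ℚ] ℂ) (hf : GenT 𝔏 c X κ f)
      (hg : GenT 𝔏 c X κ g) : GenT 𝔏 c X κ (f + g)
  | smul {X : AV} {κ : Type} (a : ℂ) (f : X.H [⋀^κ]→ₗ[ℚ] ℂ) (hf : GenT 𝔏 c X κ f) :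
      GenT 𝔏 c X κ (a • f)
  /-- renaming of the variables -/
  | reindex {X : AV} {κ κ' : Type} (e : κ ≃ κ') (f : X.H [⋀^κ]→ₗ[ℚ] ℂ)
      (hf : GenT 𝔏 c X κ f) : GenT 𝔏 c X κ' (f.domDomCongr e)
  /-- cup products (up to a factor) -/
  | cup {X : AV} {κ κ' : Type} [Fintype κ] [DecidableEq κ] [Fintype κ'] [DecidableEq κ']
      (f : X.H [⋀^κ]→ₗ[ℚ] ℂ) (g : X.H [⋀^κ']→ₗ[ℚ] ℂ) (hf : GenT 𝔏 c X κ f)
      (hg : GenT 𝔏 c X κ' g) (h : X.H [⋀^κ ⊕ κ']→ₗ[ℚ] ℂ)
      (hh : ∀ v : κ ⊕ κ' → X.H, h v = ∑ σ : Equiv.Perm (κ ⊕ κ'), ((Equiv.Perm.sign σ : ℤ) : ℂ) *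
        (f (fun k => v (σ (Sum.inl k))) * g (fun k => v (σ (Sum.inr k))))) :
      GenT 𝔏 c X (κ ⊕ κ') h
  /-- pull-back along a homomorphism -/
  | pull {X Y : AV} {κ : Type} (h : X.H →ₗ[ℚ] Y.H) (hh : IsHom X Y h)
      (f : Y.H [⋀^κ]→ₗ[ℚ] ℂ) (hf : GenT 𝔏 c Y κ f) : GenT 𝔏 c X κ (f.compLinearMap h)
  /-- push-forward (integration over the fibres) along the projection `X × Y → X`: insert a basis
  of `H_1(Y, ℚ)` -/
  | push {X Y : AV} {κ κ' : Type} (b : Basis κ' ℚ Y.H)
      (f : (X.prod Y).H [⋀^κ ⊕ κ']→ₗ[ℚ] ℂ) (hf : GenT 𝔏 c (X.prod Y) (κ ⊕ κ') f)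
      (g : X.H [⋀^κ]→ₗ[ℚ] ℂ)
      (hg : ∀ v : κ → X.H,
        g v = f (Sum.elim (fun k => ((v k, 0) : X.H × Y.H)) (fun k => ((0, b k) : X.H × Y.H)))) :
      GenT 𝔏 c X κ g

/-- The smallest system of rational cohomology classes of complex abelian varieties which contains the
Hodge classes of codimension at most `c` on all abelian varieties, and which is stable under linear
combinations, cup products, pull-backs along homomorphisms and push-forwards along projections. -/
inductive Gen (c : ℕ) : (X : AV) → (κ : Type) → (X.H [⋀^κ]→ₗ[ℚ] ℚ) → Prop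
  | unit {X : AV} {κ : Type} [IsEmpty κ] (f : X.H [⋀^κ]→ₗ[ℚ] ℚ) : Gen c X κ f
  | low {X : AV} {κ : Type} [Finite κ] (hκ : Nat.card κ ≤ 2 * c) (f : X.H [⋀^κ]→ₗ[ℚ] ℚ)
      (hf : IsHodge X.per f) : Gen c X κ f
  | zero (X : AV) (κ : Type) : Gen c X κ 0
  | add {X : AV} {κ : Type} (f g : X.H [⋀^κ]→ₗ[ℚ] ℚ) (hf : Gen c X κ f)
      (hg : Gen c X κ g) : Gen c X κ (f + g)
  | smul {X : AV} {κ : Type} (a : ℚ) (f : X.H [⋀^κ]→ₗ[ℚ] ℚ) (hf : Gen c X κ f) :
      Gen c X κ (a • f)
  | reindex {X : AV} {κ κ' : Type} (e : κ ≃ κ') (f : X.H [⋀^κ]→ₗ[ℚ] ℚ)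
      (hf : Gen c X κ f) : Gen c X κ' (f.domDomCongr e)
  | cup {X : AV} {κ κ' : Type} [Fintype κ] [DecidableEq κ] [Fintype κ'] [DecidableEq κ']
      (f : X.H [⋀^κ]→ₗ[ℚ] ℚ) (g : X.H [⋀^κ']→ₗ[ℚ] ℚ) (hf : Gen c X κ f)
      (hg : Gen c X κ' g) (h : X.H [⋀^κ ⊕ κ']→ₗ[ℚ] ℚ)
      (hh : ∀ v : κ ⊕ κ' → X.H, h v = ∑ σ : Equiv.Perm (κ ⊕ κ'), ((Equiv.Perm.sign σ : ℤ) : ℚ) *
        (f (fun k => v (σ (Sum.inl k))) * g (fun k => v (σ (Sum.inr k))))) :
      Gen c X (κ ⊕ κ') h
  | pull {X Y : AV} {κ : Type} (h : X.H →ₗ[ℚ] Y.H) (hh : IsHom X Y h)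
      (f : Y.H [⋀^κ]→ₗ[ℚ] ℚ) (hf : Gen c Y κ f) : Gen c X κ (f.compLinearMap h)
  | push {X Y : AV} {κ κ' : Type} (b : Basis κ' ℚ Y.H)
      (f : (X.prod Y).H [⋀^κ ⊕ κ']→ₗ[ℚ] ℚ) (hf : Gen c (X.prod Y) (κ ⊕ κ') f)
      (g : X.H [⋀^κ]→ₗ[ℚ] ℚ)
      (hg : ∀ v : κ → X.H,
        g v = f (Sum.elim (fun k => ((v k, 0) : X.H × Y.H)) (fun k => ((0, b k) : X.H × Y.H)))) :
      Gen c X κ g

/-- The complex span of the rational classes `f ∈ H^m(X, ℚ)` with the property `P`; `cx f` is `f` with
complex values -/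
def spanOf {X : AV} {m : ℕ} (P : (X.H [⋀^Fin m]→ₗ[ℚ] ℚ) → Prop) :
    Submodule ℂ (X.H [⋀^Fin m]→ₗ[ℚ] ℂ) :=
  Submodule.span ℂ {F | ∃ f : X.H [⋀^Fin m]→ₗ[ℚ] ℚ, P f ∧ F = cx f}

/-- **(M)** The Tate classes of codimension two on `A⁴` are combinations of Hodge classes. -/
def CondM (𝔏 : Monodromy) (A : AV) : Prop :=
  ∀ F : (pw A 4).H [⋀^Fin 4]→ₗ[ℚ] ℂ, IsTate 𝔏 (pw A 4) F → F ∈ spanOf (IsHodge (pw A 4).per)

/-! ## Translation -/

open Pool.Agent.Q180.VQ (GenB) in
theorem gen_iff {c : ℕ} {X : AV} {κ : Type} {f : X.H [⋀^κ]→ₗ[ℚ] ℚ} :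
    GenB c ∅ X κ f ↔ Gen c X κ f := by
  constructor
  · intro h
    induction h with
    | unit f => exact Gen.unit f
    | low hκ f hf => exact Gen.low hκ f hf
    | weil he f hf => exact absurd he (Set.notMem_empty _)
    | zero X κ => exact Gen.zero X κ
    | add f g hf hg h1 h2 => exact Gen.add f g h1 h2
    | smul a f hf h1 => exact Gen.smul a f h1
    | reindex e f hf h1 => exact Gen.reindex e f h1
    | cup f g hf hg h hh h1 h2 => exact Gen.cup f g h1 h2 h hh
    | pull h hh f hf h1 => exact Gen.pull h hh f h1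
    | push b f hf g hg h1 => exact Gen.push b f h1 g hg
  · intro h
    induction h with
    | unit f => exact GenB.unit f
    | low hκ f hf => exact GenB.low hκ f hf
    | zero X κ => exact GenB.zero X κ
    | add f g hf hg h1 h2 => exact GenB.add f g h1 h2
    | smul a f hf h1 => exact GenB.smul a f h1
    | reindex e f hf h1 => exact GenB.reindex e f h1
    | cup f g hf hg h hh h1 h2 => exact GenB.cup f g h1 h2 h hh
    | pull h hh f hf h1 => exact GenB.pull h hh f h1
    | push b f hf g hg h1 => exact GenB.push b f h1 g hg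

/-- the translation of the structure -/
def toXT (𝔏 : Monodromy) : Pool.Agent.H32.XT.Monodromy where
  I := 𝔏.I
  D := 𝔏.D
  nat := 𝔏.nat
  deligne := fun X ι _ _ b i => 𝔏.deligne X ι b i
  conj := fun X ι _ _ b h hh => 𝔏.conj X ι b h hh
  cen := fun X ι _ _ b z hz hw => 𝔏.centre X ι b z hz hw
  mostow := 𝔏.mostow

theorem isTate_iff (𝔏 : Monodromy) (X : AV) {κ : Type} [Fintype κ] [DecidableEq κ]
    (F : X.H [⋀^κ]→ₗ[ℚ] ℂ) : Pool.Agent.H32.XT.IsTateC (toXT 𝔏) X F ↔ IsTate 𝔏 X F := Iff.rfl

theorem genT_iff (𝔏 : Monodromy) {c : ℕ} {X : AV} {κ : Type} {f : X.H [⋀^κ]→ₗ[ℚ] ℂ} :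
    Pool.Agent.H32.XT.GenT (toXT 𝔏) c X κ f ↔ GenT 𝔏 c X κ f := by
  constructor
  · intro h
    induction h with
    | unit f => exact GenT.unit f
    | low hm f hf => exact GenT.low hm f hf
    | zero X κ => exact GenT.zero X κ
    | add f g hf hg h1 h2 => exact GenT.add f g h1 h2
    | smul a f hf h1 => exact GenT.smul a f h1
    | reindex e f hf h1 => exact GenT.reindex e f h1
    | cup f g hf hg h hh h1 h2 => exact GenT.cup f g h1 h2 h hh
    | pull h hh f hf h1 => exact GenT.pull h hh f h1
    | push b f hf g hg h1 => exact GenT.push b f h1 g hg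
  · intro h
    induction h with
    | unit f => exact Pool.Agent.H32.XT.GenT.unit f
    | low hm f hf => exact Pool.Agent.H32.XT.GenT.low hm f hf
    | zero X κ => exact Pool.Agent.H32.XT.GenT.zero X κ
    | add f g hf hg h1 h2 => exact Pool.Agent.H32.XT.GenT.add f g h1 h2
    | smul a f hf h1 => exact Pool.Agent.H32.XT.GenT.smul a f h1
    | reindex e f hf h1 => exact Pool.Agent.H32.XT.GenT.reindex e f h1
    | cup f g hf hg h hh h1 h2 => exact Pool.Agent.H32.XT.GenT.cup f g h1 h2 h hh
    | pull h hh f hf h1 => exact Pool.Agent.H32.XT.GenT.pull h hh f h1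
    | push b f hf g hg h1 => exact Pool.Agent.H32.XT.GenT.push b f h1 g hg

section

variable {ι : Type} [Fintype ι] [DecidableEq ι]

theorem condA_iff (A : AV) (b : Basis ι ℚ A.H) (c : ℕ) :
    CondA A b c ↔ Pool.Agent.H24.X2.CondA A b c := by
  constructor
  · intro h n hn φ hφ
    rcases h n hn (fun x => φ x) ⟨φ, hφ, fun _ => rfl⟩ with h1 | h1
    · exact Or.inl fun x hx => h1 x hx
    · exact Or.inr fun x hx => (h1 x hx).imp (fun h2 => Subtype.ext h2) fun h2 => h2
  · rintro h n hn ρ ⟨φ, hφ, hρ⟩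
    rcases h n hn φ hφ with h1 | h1
    · refine Or.inl fun x hx => ?_
      rw [hρ]
      exact h1 x hx
    · refine Or.inr fun x hx => ?_
      rw [hρ]
      exact (h1 x hx).imp (fun h2 => congrArg Subtype.val h2) fun h2 => h2

theorem condD_iff (A : AV) (b : Basis ι ℚ A.H) (c : ℕ) :
    CondD A b c ↔ Pool.Agent.H24.X2.CondD' A b 5 c := by
  constructor
  · rintro h l hl φ hφ ⟨x, hx, h2⟩
    exact h l hl (fun x => φ x) ⟨φ, hφ, fun _ => rfl⟩ ⟨x, hx, h2⟩
  · rintro h l hl ρ ⟨φ, hφ, hρ⟩ ⟨x, hx, h2⟩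
    refine h l hl φ hφ ⟨x, hx, ?_⟩
    rw [hρ] at h2
    exact h2

end

/-- the structure `Monodromy` has a model: the conjugates of the Hodge operators -/
theorem nonempty_monodromy : Nonempty Monodromy :=
  ⟨{  I := Pool.Agent.H47.XT.hodgeModel.I
      D := Pool.Agent.H47.XT.hodgeModel.D
      nat := Pool.Agent.H47.XT.hodgeModel.nat
      deligne := fun X ι _ _ b i => Pool.Agent.H47.XT.hodgeModel.deligne X ι b i
      conj := fun X ι _ _ b h hh => Pool.Agent.H47.XT.hodgeModel.conj X ι b h hh
      centre := fun X ι _ _ b z hz hw => Pool.Agent.H47.XT.hodgeModel.cen X ι b z hz hw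
      mostow := Pool.Agent.H47.XT.hodgeModel.mostow }⟩

/-! ## The theorem -/

/-- **The exact codimension of the Tate classes.** -/
theorem result :
    (∀ (𝔏 : Monodromy) (A : AV) {ι : Type} [Fintype ι] [DecidableEq ι] (b : Basis ι ℚ A.H) (c : ℕ),
      2 ≤ c → (c ≤ 3 → 8 ≤ finrank ℂ A.T → ¬ HasQuotientSo8 A b) →
      ((∀ Y : AV, IsCM Y → ∀ (k m : ℕ) (F : (pw (A.prod Y) k).H [⋀^Fin m]→ₗ[ℚ] ℂ),
          IsTate 𝔏 (pw (A.prod Y) k) F → F ∈ spanOf (Gen c (pw (A.prod Y) k) (Fin m))) ↔
        CondM 𝔏 A ∧ CondA A b c ∧ CondD A b c) ∧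
      (CondM 𝔏 A →
        ((∀ Y : AV, IsCM Y → ∀ (k m : ℕ) (F : (pw (A.prod Y) k).H [⋀^Fin m]→ₗ[ℚ] ℂ),
            IsTate 𝔏 (pw (A.prod Y) k) F → GenT 𝔏 c (pw (A.prod Y) k) (Fin m) F) ↔
          CondA A b c ∧ CondD A b c))) ∧
    ∀ c : ℕ, 2 ≤ c → ∃ (A : AV) (g : ℕ) (b : Basis (Fin g ⊕ Fin g) ℚ A.H), ¬ CondA A b c := by
  refine ⟨fun 𝔏 A ι _ _ b c hc hD4 => ?_, fun c hc => ?_⟩
  swap
  · obtain ⟨A, g, b, h⟩ := Pool.Agent.H32.XT.ex_condA hc
    exact ⟨A, g, b, fun h1 => h ((condA_iff A b c).1 h1)⟩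
  have h8 : 4 ≤ c ∨ ¬ ∃ ρ : Pool.Agent.H24.X2.hodgeLie A b →ₗ⁅ℂ⁆
      LieAlgebra.Orthogonal.so (Fin 8) ℂ, Function.Surjective ρ := by
    by_cases h : c ≤ 3
    · by_cases h' : 8 ≤ finrank ℂ A.T
      · exact Or.inr fun ⟨φ, hφ⟩ => hD4 h h' ⟨fun x => φ x, φ, hφ, fun _ => rfl⟩
      · exact Or.inr (Pool.Agent.H13.N8.no_quot A b (by omega))
    · exact Or.inl (by omega)
  have hs : ∀ (X : AV) (m : ℕ), {F' | ∃ f : X.H [⋀^Fin m]→ₗ[ℚ] ℚ,
      Pool.Agent.Q180.VQ.GenB c ∅ X (Fin m) f ∧ F' = cx f} =
      {F' | ∃ f : X.H [⋀^Fin m]→ₗ[ℚ] ℚ, Gen c X (Fin m) f ∧ F' = cx f} := by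
    intro X m
    ext F'
    exact exists_congr fun f => and_congr_left' gen_iff
  rw [condA_iff, condD_iff]
  have k1 := Pool.Agent.H32.XT.main_two hc A b h8 (toXT 𝔏)
  refine ⟨Iff.trans ?_ k1, fun hM => ?_⟩
  · constructor
    · intro h Y hY k m F hF
      rw [hs]
      exact h Y hY k m F hF
    · intro h Y hY k m F hF
      have h1 := h Y hY k m F hF
      rw [hs] at h1
      exact h1
  · refine Iff.trans ?_ (Pool.Agent.H32.XT.main_one hc A b h8 (toXT 𝔏) hM).1
    constructor
    · intro h Y hY k m F hF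
      exact (genT_iff 𝔏).2 (h Y hY k m F hF)
    · intro h Y hY k m F hF
      exact (genT_iff 𝔏).1 (h Y hY k m F hF)

end Pool.Agent.Results.MP_021685_ag.ExactCodimension
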