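import Pool.Agent.H89.PT.Sys
import Pool.Agent.H89.PT.Exist

/-!
# The Tate conjecture and the exact rank for one hundred percent of the twists through a section

Let `f` be a polynomial of degree `n ≥ 2` over a number field `k`, and `a(t)`, `b(t)` polynomials over
`k`. The surface `P(t) y ^ q = b(t) ^ n (f(x / b(t)) - t)`, where
`P(t) = b(t) ^ n (f(a(t) / b(t)) - t)`, is the twist of the surface `y ^ q = f(x) - t` over the
`t`-line which has the section `x = a(t)`, `y = 1`. This is the general form of the twists with a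
section. We prove that for one hundred percent of the pairs `(a, b)` of given degrees over the ring of
integers, ordered by height, the Tate conjecture at `p` is true for this surface over a given finite
extension `κ` of `k`, the `p`-primary part of the Tate-Shafarevich group of the Jacobian `J` of the
generic fibre over `κ(t)` is zero, and the rank of `J` over `κ(t)` is precisely `r (q - 1)`, where
`r + 1` is the number of the irreducible factors of `f(X) - f(Y)` over `κ`. Here `p` is any prime
not dividing `n`, and `q` is any power of `p` such that `κ` contains the `q`-th roots of unity. The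
generators are given by the factors: if `f(X) - f(Y)` is the product of `Ψ_0, …, Ψ_r`, then they are
the divisors `Ψ_i(x / b(t), a(t) / b(t)) = 0`, `y = ζ ^ l`, `i < r`, `l < q - 1`.

The definitions of the Jacobian, of the statement of the Tate conjecture and of the
Tate-Shafarevich group are in `Pool.Agent.Y160.SL.Jac`.
-/

set_option autoImplicit false
set_option linter.all false

open Polynomial NumberField
open scoped Classical

namespace Pool.Agent.Results.MP_021685_ag.PointedTwists

open Pool.Agent.TH115.GD (IsTower)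
open Pool.Agent.Y160.SL

section defs

variable {κ : Type} [Field κ]

/-- The polynomials `Ψ 0, …, Ψ r` in `X` over `κ[Y]` are the monic irreducible factors of
`f(X) - f(Y)`: here `C f` is the polynomial `f(Y)`, and `f.map C` is the polynomial `f(X)`. -/
structure IsFactorization (f : κ[X]) {r : ℕ} (Ψ : Fin (r + 1) → κ[X][X]) : Prop where
  monic : ∀ i, (Ψ i).Monic
  irreducible : ∀ i, Irreducible (Ψ i)
  prod : ∏ i, Ψ i = f.map C - C f

/-- The polynomial `P(t) = b ^ n (f(a / b) - t)`, where `n` is the degree of `f`. -/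
noncomputable def marked (f a b : κ[X]) : κ[X] := ((f.map C - C X : κ[X][X]).scaleRoots b).eval a

/-- The polynomial `D ^ n (f(x / D) - t)` in `x` over `K = κ(t)`, where `n` is the degree of `f`. If
`D = b P ^ j` and `n j + 1 = q m`, then the surface `w ^ q = D ^ n (f(x / D) - t)` is isomorphic to the
surface `P y ^ q = b ^ n (f(x / b) - t)`: the isomorphism is given by `w = P ^ m y`, and by the
multiplication of `x` by `P ^ j`. -/
noncomputable def twist (K : Type) [Field K] [Algebra κ[X] K] (f D : κ[X]) : K[X] :=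
  ((f.map C - C X : κ[X][X]).scaleRoots D).map (algebraMap κ[X] K)

/-- The polynomial `D ^ d Ψ(x / D, a / b)` in `x` over `K = κ(t)`, where `d` is the degree of
`Ψ(X, Y)` in `X`. -/
noncomputable def factorAt (K : Type) [Field K] [Algebra κ[X] K] (Ψ : κ[X][X]) (a b D : κ[X]) : K[X] :=
  (Ψ.map (eval₂RingHom ((algebraMap κ[X] K).comp C)
    (algebraMap κ[X] K a / algebraMap κ[X] K b))).scaleRoots (algebraMap κ[X] K D)

/-- The ideal of the divisor `u(x) = 0`, `w = v(x)` in the coordinate ring of the affine curve
`w ^ q = f(x)`. -/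
noncomputable def divIdeal {K : Type} [Field K] (q : ℕ) (f u v : K[X]) : Ideal (CoordRing q f) :=
  Ideal.span {ofPoly q f u, wfun q f - ofPoly q f v}

/-- The ideal `I` of `R` is an invertible module, and `P` is its class in the Picard group. -/
def IsIdealClass {R : Type} [CommRing R] (P : Additive (CommRing.Pic R)) (I : Ideal R) : Prop :=
  ∃ _ : Module.Invertible R I, P = Additive.ofMul (CommRing.Pic.mk R I)

/-- The element `P` of `J(K) = Pic(K[x, w] / (w ^ q - f(x)))` is the class of the ideal of the divisor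
`u(x) = 0`, `w = v(x)`. -/
def IsDivisor {K : Type} [Field K] (q : ℕ) (f u v : K[X]) (P : Jac q f K) : Prop :=
  IsIdealClass (R := CoordRing q (f.map (algebraMap K K))) P
    (divIdeal q (f.map (algebraMap K K)) u v)

/-- The conclusions for the pair `(a, b)` over the field `κ`. Let `p` be a prime not dividing the degree
`n` of `f`, and `q = p ^ (s + 1)` a power of `p` such that `κ` contains the primitive `q`-th root of
unity `ζ`, `n j + 1 = q m`, and `D = b P ^ j`. Let `K = κ(t)`, and `F = κb(t)`, where `κb` is the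
algebraic closure of `κ`. Then the Tate conjecture at `p` is true for the surface
`w ^ q = D ^ n (f(x / D) - t)` over `κ`, the `p`-primary part of the Tate-Shafarevich group over `K`
of the Jacobian `J` of its generic fibre is zero, and there are `r (q - 1)` elements of `J(K)` which
are linearly independent over `ℤ` and which generate `J(K)` modulo `p ^ N` for all `N`: the classes of
the divisors `D ^ d Ψ_i(x / D, a / b) = 0`, `w = ζ ^ l P ^ m`, where `i < r` and `l < q - 1`. -/
def Conclusions (f : κ[X]) {r : ℕ} (Ψ : Fin (r + 1) → κ[X][X]) (a b : κ[X]) : Prop :=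
  ∀ (p s j m : ℕ) (ζ : κ), p.Prime → p.Coprime f.natDegree → IsPrimitiveRoot ζ (p ^ (s + 1)) →
    f.natDegree * j + 1 = p ^ (s + 1) * m →
  ∀ (κb K F : Type) [Field κb] [Algebra κ κb] [Field K] [Algebra κ[X] K] [IsFractionRing κ[X] K]
    [Field F] [Algebra κb[X] F] [IsFractionRing κb[X] F] [Algebra K F], IsTower κ κb K F →
    TateAt (F := F) p (p ^ (s + 1)) κb (twist K f (b * marked f a b ^ j)) ∧
    ShaTriv p (p ^ (s + 1)) κ[X] (twist K f (b * marked f a b ^ j)) ∧
    ∃ E : Fin r × Fin (p ^ (s + 1) - 1) →
        Jac (p ^ (s + 1)) (twist K f (b * marked f a b ^ j)) K,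
      (LinearIndependent ℤ E ∧
        ∀ (N : ℕ) (x : Jac (p ^ (s + 1)) (twist K f (b * marked f a b ^ j)) K),
          ∃ y : Jac (p ^ (s + 1)) (twist K f (b * marked f a b ^ j)) K,
            x - p ^ N • y ∈ AddSubgroup.closure (Set.range E)) ∧
      ∀ i, IsDivisor (p ^ (s + 1)) (twist K f (b * marked f a b ^ j))
        (factorAt K (Ψ i.1.castSucc) a b (b * marked f a b ^ j))
        (C (algebraMap κ[X] K (C ζ ^ (i.2 : ℕ) * marked f a b ^ m))) (E i)

/-- The coefficients of a pair of polynomials of degrees at most `m₁` and `m₂` over the ring of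
integers of `k`. -/
abbrev Coeffs (k : Type) [Field k] [NumberField k] (m₁ m₂ : ℕ) : Type :=
  Fin (m₁ + 1) ⊕ Fin (m₂ + 1) → 𝓞 k

/-- The polynomial `a(t)` with the given coefficients. -/
noncomputable def polyA {k : Type} [Field k] [NumberField k] {m₁ m₂ : ℕ} (c : Coeffs k m₁ m₂) :
    k[X] := ∑ i : Fin (m₁ + 1), C (algebraMap (𝓞 k) k (c (Sum.inl i))) * X ^ (i : ℕ)

/-- The polynomial `b(t)` with the given coefficients. -/
noncomputable def polyB {k : Type} [Field k] [NumberField k] {m₁ m₂ : ℕ} (c : Coeffs k m₁ m₂) :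
    k[X] := ∑ i : Fin (m₂ + 1), C (algebraMap (𝓞 k) k (c (Sum.inr i))) * X ^ (i : ℕ)

/-- The condition `A` holds for one hundred percent of the pairs of polynomials, ordered by the maximum
of the absolute values of the coordinates of the coefficients in the basis `B` of the ring of
integers. The number of the pairs of height at most `H` is `(2 H + 1) ^ ((m₁ + m₂ + 2) d)`, where
`d` is the degree of `k`. -/
def OneHundredPercent {k : Type} [Field k] [NumberField k] {I : Type} [Fintype I]
    (B : Module.Basis I ℤ (𝓞 k)) (m₁ m₂ : ℕ) (A : Coeffs k m₁ m₂ → Prop) : Prop :=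
  ∀ η : ℝ, 0 < η → ∃ H₀ : ℕ, ∀ H : ℕ, H₀ ≤ H →
    ({c : Coeffs k m₁ m₂ | (∀ i l, |B.repr (c i) l| ≤ (H : ℤ)) ∧ ¬ A c}.ncard : ℝ) ≤
      η * (2 * (H : ℝ) + 1) ^ ((m₁ + m₂ + 2) * Fintype.card I)

end defs

theorem cls {K : Type} [Field K] {q : ℕ} {f : K[X]} {V v : K[X]} {P : Jac q f K}
    (h : Pool.Agent.Y160.SQ.IsCl K (Pool.Agent.Y160.SQ.prI q (f.map (algebraMap K K)) V v) P) :
    IsDivisor q f V v P := Pool.Agent.Q45.TW.cl_class h

theorem concl {κ : Type} [Field κ] [CharZero κ] {f a b : κ[X]} {N r : ℕ}
    {Ψ : Fin (r + 1) → κ[X][X]} (hΨ : IsFactorization f Ψ) (h : H89.PT.IsPair f a b N)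
    (hg : ∀ i, H89.PT.Good (H89.PT.FP f a b) N (Ψ i)) : Conclusions f Ψ a b := by
  intro p s j m ζ hp hcop hζ hm κb K F _ _ _ _ _ _ _ _ _ hT
  obtain ⟨h1, h2, E, h3, h4⟩ := H89.PT.curve (q := p ^ (s + 1)) hT hp rfl hζ h hcop hΨ.monic
    hΨ.prod hg hm
  refine ⟨h1, h2, E, h3, fun i => ?_⟩
  have h5 := h4 i
  have e : (C (algebraMap κ[X] K (C ζ) ^ (i.2 : ℕ)) *
      C (algebraMap κ[X] K (H89.PT.PP f a b ^ m)) : K[X]) =
      C (algebraMap κ[X] K (C ζ ^ (i.2 : ℕ) * marked f a b ^ m)) := by
    rw [← C_mul, ← map_pow, ← map_mul]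
    rfl
  rw [e] at h5
  exact cls h5

/-- **The Tate conjecture and the exact rank for one hundred percent of the twists through a
section.** Let `κ / k` be an extension of number fields, `f` a monic polynomial over `k` of degree at
least 2. There is a factorization of `f(X) - f(Y)` over `κ` in irreducible factors `Ψ_0, …, Ψ_r`, and
for all `m₁`, `m₂` which are not both zero the conclusions hold over `κ` for one hundred percent of
the pairs `(a, b)` of polynomials of degree at most `m₁` and `m₂` over the ring of integers of `k`. -/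
theorem result (k κ : Type) [Field k] [NumberField k] [Field κ] [NumberField κ] [Algebra k κ]
    (I : Type) [Fintype I] (B : Module.Basis I ℤ (𝓞 k)) (f : k[X]) (hf : f.Monic)
    (hn : 2 ≤ f.natDegree) :
    (∃ (r : ℕ) (Ψ : Fin (r + 1) → κ[X][X]), IsFactorization (f.map (algebraMap k κ)) Ψ) ∧
    ∀ (r : ℕ) (Ψ : Fin (r + 1) → κ[X][X]), IsFactorization (f.map (algebraMap k κ)) Ψ →
      ∀ m₁ m₂ : ℕ, 0 < m₁ ∨ 0 < m₂ → OneHundredPercent B m₁ m₂ fun c =>
        Conclusions (f.map (algebraMap k κ)) Ψ ((polyA c).map (algebraMap k κ))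
          ((polyB c).map (algebraMap k κ)) := by
  have hd : (f.map (algebraMap k κ)).natDegree = f.natDegree := hf.natDegree_map _
  constructor
  · have h1 : ((f.map (algebraMap k κ)).map C - C (f.map (algebraMap k κ)) : κ[X][X]).Monic := by
      refine Monic.sub_of_left ((hf.map _).map _) ?_
      refine degree_C_le.trans_lt ?_
      rw [← natDegree_pos_iff_degree_pos, (hf.map _).natDegree_map, hd]
      omega
    have h2 : 0 < ((f.map (algebraMap k κ)).map C - C (f.map (algebraMap k κ)) :
        κ[X][X]).natDegree := by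
      rw [natDegree_sub_C, (hf.map _).natDegree_map, hd]
      omega
    obtain ⟨r, Ψ, h3, h4⟩ := H89.PT.exists_factors h1 h2
    exact ⟨r, Ψ, fun i => (h3 i).1, fun i => (h3 i).2, h4⟩
  · intro r Ψ hΨ m₁ m₂ hm η hη
    obtain ⟨S, hS, hc⟩ := H89.PT.pairs B (hf.map (algebraMap k κ)) (by rw [hd]; omega) hm
      (fun i => ⟨hΨ.monic i, hΨ.irreducible i⟩)
    obtain ⟨H₀, h0⟩ := Pool.Agent.NH7.AC.dens B hS hη (P := fun c : Coeffs k m₁ m₂ =>
        Conclusions (f.map (algebraMap k κ)) Ψ ((polyA c).map (algebraMap k κ))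
          ((polyB c).map (algebraMap k κ))) (fun c hcon => by
      by_contra h1
      exact hcon (concl hΨ (hc c h1).1 (hc c h1).2))
    refine ⟨H₀, fun H hH => (h0 H hH).trans (le_of_eq ?_)⟩
    rw [← pow_mul, Fintype.card_sum, Fintype.card_fin, Fintype.card_fin]
    congr 3
    ring

end Pool.Agent.Results.MP_021685_ag.PointedTwists
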