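import Mathlib
import Pool.Agent.H32.TT.Main

/-!
# The Tate conjecture for all powers of an abelian variety is decided by holomorphic forms

Let `A` be an abelian variety of dimension `g` over a number field, `V` its rational Tate module with
coefficients extended to the algebraic closure of `ℚ_ℓ`, so `H^m(A)` is the space of the alternating
forms in `m` variables on `V`. Let `𝔤` be the Lie algebra of the monodromy group (multiplier zero).
It contains involutions: if `h` is a Hodge-Tate operator (the projection of `V` to a part of the
Hodge-Tate decomposition at a place above `ℓ`), then `z = 2 h - 1` is in `𝔤`. The forms which are not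
changed by `z` in one variable are the holomorphic `m`-forms of `z`, an extreme part of the Hodge-Tate
decomposition of `H^m(A)`. Let `T_m` be the smallest subspace of `H^m(A)` which is stable under `𝔤`
and contains the holomorphic `m`-forms for all such `z`.

**Theorem.** If `A` has no factor of type IV (the Rosati involution is trivial on the centre), then
the Tate conjecture holds for *all powers* of `A` if and only if for `1 ≤ m ≤ g` the Tate classes in
`T_m ⊗ T_m ⊆ H^{2m}(A × A)` are algebraic. In general there are moreover `r` Tate classes on powers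
of `A` to be tested, `r + dim CentKill + dim CentReal ≤ dim CentSym`.

The library's result `TatePowersFromSquare` needs all Tate classes on `A × A`, of all codimensions
and all Künneth types `(a, b)`. The method is that of `HolomorphicFormsDecide` (the Hodge conjecture,
`MP_e12fcd_ag`):

1. By positivity (Mostow: `𝔤` is stable under the adjoint for a suitable symplectic basis) a system
   of Tate classes contains all Tate classes fixed by the elements `u` of the unitary symplectic
   group which fix the system; let `u` preserve all `𝔤`-submodules of `T_m`.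
2. If `Y` in the symplectic Lie algebra preserves the submodule generated by the product `ω_D` of a
   basis of the `1`-eigenspace of an involution `D`, then the part of degree `-1` of `Y` is in `𝔤`.
   So `𝔤` is an ideal and `u` normalizes it.
3. After a change by an element of the group, `u` preserves a torus containing `D` and an ordering
   of the weights; the products of the highest weight vectors show that `u` is diagonal.
4. The relations between the eigenvalues of `u` come from Galois endomorphisms of `T_m`, up to those
   which involve the centre of `𝔤`, which need the `r` classes.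
-/

namespace Pool.Agent.Results.MP_021685_ag.TateFromHolomorphicForms

open Module Pool.Agent.NH55.TP Pool.Agent.H32.TT

/-- **Holomorphic forms decide the Tate conjecture for the powers.** -/
theorem result (V : Type) [AddCommGroup V] [Module ℂ V] (Γ : Type) [Group Γ]
    (ρ : Representation ℂ Γ V) (χ : Γ →* ℂ) (ω : V →ₗ[ℂ] V →ₗ[ℂ] ℂ)
    (𝔤 : Submodule ℂ (V →ₗ[ℂ] V)) (hA : IsTateModule ρ χ ω 𝔤) :
    (∃ r : ℕ, r + finrank ℂ (CentKill ρ χ) + finrank ℂ (CentReal ρ ω) ≤
        finrank ℂ (CentSym ρ ω) ∧
      ∃ (κ : Fin r → Type) (_ : ∀ i, Fintype (κ i)) (_ : ∀ i, DecidableEq (κ i))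
        (c : ∀ i, Frm V (κ i)), (∀ i, IsTate ρ χ (c i)) ∧
        ∀ S : Sys ω, (∀ (κ : Type) [Fintype κ] [DecidableEq κ] (f : Frm V κ), IsTate ρ χ f →
            f ∈ S.T κ) ↔ (EndTm ρ χ 𝔤 S ∧ ∀ i, c i ∈ S.T (κ i))) ∧
    ((∀ z, IsCentral ρ z → ∀ x y, ω (z x) y = ω x (z y)) →
      ∀ S : Sys ω, (∀ (κ : Type) [Fintype κ] [DecidableEq κ] (f : Frm V κ), IsTate ρ χ f →
          f ∈ S.T κ) ↔ EndTm ρ χ 𝔤 S) := by
  refine ⟨?_, fun hreal S => ⟨fun h m _ _ f _ hf => h _ f hf,
    fun hS κ _ _ f hf => tate_forms_real hA hreal S hS κ f hf⟩⟩
  obtain ⟨r, h1, κ, i1, i2, c, hc, h2⟩ := tate_forms hA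
  exact ⟨r, h1, κ, i1, i2, c, hc, fun S => ⟨fun h => ⟨fun m _ _ f _ hf => h _ f hf,
    fun i => h _ _ (hc i)⟩, fun h κ _ _ f hf => h2 S h.1 h.2 κ f hf⟩⟩

end Pool.Agent.Results.MP_021685_ag.TateFromHolomorphicForms
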